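import Mathlib
import Pool.Agent.Q182.SemilatticeDefs
import Pool.Agent.Q182.HCExample4

/-!
# Maximal chains c-complete does not imply H-closed
-/

namespace Pool.Agent.Results.MP_97d10c_gt.NotHClosed

open Q182

/-- There are a Hausdorff topological semilattice `X`, every maximal chain `L` of which is closed
under the product and `c`-complete with the subspace topology and the restricted product, a
Hausdorff topological semigroup `Y` (even a topological semilattice: commutative and idempotent)
and a homomorphism `h : X → Y` that is a topological embedding and whose image is not closed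
in `Y`. -/
theorem result :
    ∃ (X : Type) (_ : SemilatticeInf X) (_ : TopologicalSpace X),
      ContinuousInf X ∧ T2Space X ∧
        (∀ L : Set X, IsMaxChain (· ≤ ·) L →
          ∃ hinf : ∀ ⦃x y : X⦄, x ∈ L → y ∈ L → x ⊓ y ∈ L,
            @IsCComplete ↥L (Subtype.semilatticeInf hinf) inferInstance) ∧
        ∃ (Y : Type) (_ : CommSemigroup Y) (_ : TopologicalSpace Y),
          (∀ y : Y, y * y = y) ∧ ContinuousMul Y ∧ T2Space Y ∧
            ∃ h : X → Y, Topology.IsEmbedding h ∧
              (∀ u v, h (u ⊓ v) = h u * h v) ∧ ¬ IsClosed (Set.range h) := by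
  let cs : CommSemigroup HC.Pt :=
    { mul := fun a b => a ⊓ b
      mul_assoc := fun a b c => inf_assoc a b c
      mul_comm := fun a b => inf_comm a b }
  refine ⟨HC.X, inferInstance, inferInstance, inferInstance, inferInstance, fun L hL => ?_,
    HC.Pt, cs, inferInstance, fun y => inf_idem y, ⟨continuous_inf (L := HC.Pt)⟩,
    inferInstance, HC.X.y, HC.X.isEmbedding_y, fun u v => HC.X.y_inf u v,
    HC.not_isClosed_range⟩
  have hinf : ∀ ⦃x y : HC.X⦄, x ∈ L → y ∈ L → x ⊓ y ∈ L := by
    intro x y hx hy
    rcases hL.1.total hx hy with h | h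
    · rw [inf_eq_left.2 h]
      exact hx
    · rw [inf_eq_right.2 h]
      exact hy
  exact ⟨hinf, @HC.cComplete_of_sComplete ↥L (Subtype.semilatticeInf hinf) inferInstance
    (HC.maxChain_sComplete L hL hinf)⟩

end Pool.Agent.Results.MP_97d10c_gt.NotHClosed
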